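import Mathlib
import Pool.Agent.K3h39.KR.Stm
import Pool.Agent.R478.BES.CharSum

/-! Brick G of `Pool.Agent.K3h39.KR.Stm`: the kernel `JJ` is a Bessel kernel (Gold sums). -/

namespace Pool.Agent.K3h67.KR

open Finset Pool.Agent.R478.BES Pool.Agent.K3h39.KR

variable {F : Type*} [Field F] [Fintype F] [DecidableEq F] [CharP F 2]

/-- the cubic sum. -/
noncomputable def B (e : AddChar F ℂ) (a : F) : ℂ := ∑ l : F, e (a * (l ^ 3 + l ^ 2))

/-- the Gold sum. -/
noncomputable def G (e : AddChar F ℂ) (x : F) : ℂ := ∑ s : F, e (s ^ 3 + x * s)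

omit [DecidableEq F] in
theorem sq_inj : Function.Injective fun x : F => x ^ 2 := by
  intro u v h
  simp only at h
  have : (u + v) ^ 2 = 0 := by rw [CharTwo.add_sq, h, CharTwo.add_self_eq_zero]
  exact CharTwo.add_eq_zero.1 (pow_eq_zero_iff (two_ne_zero) |>.1 this)

omit [DecidableEq F] in
theorem sq_bij : Function.Bijective fun x : F => x ^ 2 :=
  Finite.injective_iff_bijective.1 sq_inj

omit [DecidableEq F] in
theorem sum_sq (f : F → ℂ) : ∑ x : F, f (x ^ 2) = ∑ x : F, f x :=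
  Fintype.sum_bijective (fun x : F => x ^ 2) sq_bij _ _ fun _ => rfl

omit [DecidableEq F] [CharP F 2] in
theorem sum_cube (hinj : Function.Injective fun x : F => x ^ 3) (f : F → ℂ) :
    ∑ x : F, f (x ^ 3) = ∑ x : F, f x :=
  Fintype.sum_bijective (fun x : F => x ^ 3) (Finite.injective_iff_bijective.1 hinj) _ _
    fun _ => rfl

omit [Fintype F] [DecidableEq F] [CharP F 2] in
theorem hne (e : AddChar F ℂ) (h1 : e 1 = -1) : e ≠ 1 := by
  rintro rfl
  rw [AddChar.one_apply] at h1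
  norm_num at h1

omit [Fintype F] [DecidableEq F] in
theorem e_pm (e : AddChar F ℂ) (x : F) : e x = 1 ∨ e x = -1 := by
  have := e_self e x
  have h2 : (e x - 1) * (e x + 1) = 0 := by linear_combination this
  rcases mul_eq_zero.1 h2 with h | h
  · left; linear_combination h
  · right; linear_combination h

theorem B_eq_G (e : AddChar F ℂ) (h2 : ∀ x, e (x ^ 2) = e x) (x : F) (hx : x ≠ 0) :
    B e (x ^ 3) = G e x := by
  unfold B G
  rw [← sum_sq (fun t : F => e (t ^ 3 + x * t))]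
  refine Fintype.sum_equiv (Equiv.mulLeft₀ x hx) _ _ fun l => ?_
  simp only [Equiv.mulLeft₀_apply]
  have h3 : x ^ 3 * (l ^ 3 + l ^ 2) = (x * l) ^ 3 + x * (x * l) ^ 2 := by ring
  rw [h3, AddChar.map_add_eq_mul, AddChar.map_add_eq_mul, ← h2 ((x * l) ^ 3)]
  congr 2
  ring

theorem G_zero (e : AddChar F ℂ) (h1 : e 1 = -1) (hinj : Function.Injective fun x : F => x ^ 3) :
    G e 0 = 0 := by
  unfold G
  simp only [zero_mul, add_zero]
  rw [sum_cube hinj (fun t => e t)]
  have := sum_e e (hne e h1) 1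
  simpa using this

theorem G_sq (e : AddChar F ℂ) (h2 : ∀ x, e (x ^ 2) = e x) (x : F) : G e (x ^ 2) = G e x := by
  unfold G
  rw [← sum_sq (fun t : F => e (t ^ 3 + x ^ 2 * t))]
  refine Finset.sum_congr rfl fun s _ => ?_
  rw [← h2 (s ^ 3 + x * s)]
  congr 1
  rw [CharTwo.add_sq]
  ring

/-- shift. -/
theorem G_shift (e : AddChar F ℂ) (h2 : ∀ x, e (x ^ 2) = e x) (t w : F) :
    G e t = e (w ^ 6 + t * w ^ 2) * G e (t + w ^ 4 + w) := by
  unfold G
  rw [Finset.mul_sum]
  symm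
  refine Fintype.sum_equiv (Equiv.addRight (w ^ 2)) _ _ fun s => ?_
  simp only [Equiv.coe_addRight]
  have h3 : (s + w ^ 2) ^ 3 + t * (s + w ^ 2) =
      (w ^ 6 + t * w ^ 2) + (s ^ 3 + (t + w ^ 4) * s) + (s * w) ^ 2 := by
    grind
  rw [h3, AddChar.map_add_eq_mul _ _ ((s * w) ^ 2), h2, ← AddChar.map_add_eq_mul,
    ← AddChar.map_add_eq_mul]
  congr 1
  ring

theorem G_eq_zero (e : AddChar F ℂ) (h1 : e 1 = -1) (h2 : ∀ x, e (x ^ 2) = e x) (t : F)
    (ht : e t = 1) : G e t = 0 := by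
  have h := G_shift e h2 t 1
  have h3 : t + 1 ^ 4 + 1 = t := by grind
  rw [h3] at h
  have h4 : e (1 ^ 6 + t * 1 ^ 2) = -1 := by
    rw [AddChar.map_add_eq_mul]
    simp [h1, ht]
  rw [h4] at h
  linear_combination h / 2

theorem exists_root (e : AddChar F ℂ) (h1 : e 1 = -1) (h2 : ∀ x, e (x ^ 2) = e x) (y : F)
    (hy : e y = 1) : ∃ k : F, k ^ 2 + k = y := by
  by_contra hcon
  push Not at hcon
  have hN : (Fintype.card F : ℂ) ≠ 0 := by
    exact_mod_cast Fintype.card_ne_zero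
  have a1 : ∑ k : F, ∑ t : F, e ((k ^ 2 + k + y) * t) = 0 := by
    refine Finset.sum_eq_zero fun k _ => ?_
    rw [sum_e e (hne e h1), if_neg]
    intro h
    exact hcon k (CharTwo.add_eq_zero.1 h)
  have a2 : ∑ k : F, ∑ t : F, e ((k ^ 2 + k + y) * t) = Fintype.card F * 2 := by
    rw [Finset.sum_comm]
    have a3 : ∀ t : F, ∑ k : F, e ((k ^ 2 + k + y) * t) =
        e (y * t) * if t ^ 2 + t = 0 then (Fintype.card F : ℂ) else 0 := by
      intro t
      rw [← sum_e e (hne e h1), Finset.mul_sum, ← sum_sq (fun k => e (y * t) * e ((t ^ 2 + t) * k))]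
      refine Finset.sum_congr rfl fun k _ => ?_
      have h3 : (k ^ 2 + k + y) * t = y * t + (t * k ^ 2 + t * k) := by ring
      rw [h3, AddChar.map_add_eq_mul, AddChar.map_add_eq_mul, ← h2 (t * k),
        ← AddChar.map_add_eq_mul]
      congr 2
      ring
    rw [Finset.sum_congr rfl fun t _ => a3 t]
    have a4 : ∀ t : F, (e (y * t) * if t ^ 2 + t = 0 then (Fintype.card F : ℂ) else 0) =
        (if t = 0 then (Fintype.card F : ℂ) else 0) + (if t = 1 then (Fintype.card F : ℂ) else 0) := by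
      intro t
      by_cases c0 : t = 0
      · subst c0; simp
      · by_cases c1 : t = 1
        · subst c1
          have : (1 : F) + 1 = 0 := CharTwo.add_self_eq_zero 1
          simp [this, hy]
        · have : t ^ 2 + t ≠ 0 := by
            intro h
            have h' : t * (t + 1) = 0 := by rw [← h]; ring
            rcases mul_eq_zero.1 h' with h'' | h''
            · exact c0 h''
            · exact c1 (CharTwo.add_eq_zero.1 h'')
          simp [this, c0, c1]
    rw [Finset.sum_congr rfl fun t _ => a4 t, Finset.sum_add_distrib]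
    simp
    ring
  rw [a1] at a2
  have : (Fintype.card F : ℂ) = 0 := by linear_combination -a2 / 2
  exact hN this

theorem G_main (e : AddChar F ℂ) (h1 : e 1 = -1) (h2 : ∀ x, e (x ^ 2) = e x) (p r : F) :
    G e (p ^ 4 + p ^ 2 * r ^ 2 + r ^ 4 + p + r) = e (p ^ 3 + r ^ 3) * G e (p ^ 4 * r ^ 4) := by
  have ep : ∀ x, e x * e x = 1 := e_self e
  have h4 : ∀ x, e (x ^ 4) = e x := by
    intro x
    have : x ^ 4 = (x ^ 2) ^ 2 := by ring
    rw [this, h2, h2]
  rcases e_pm e (p * r) with hq | hq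
  · have b1 : e (p ^ 4 + p ^ 2 * r ^ 2 + r ^ 4 + p + r) = 1 := by
      have : p ^ 2 * r ^ 2 = (p * r) ^ 2 := by ring
      rw [AddChar.map_add_eq_mul, AddChar.map_add_eq_mul, AddChar.map_add_eq_mul,
        AddChar.map_add_eq_mul, h4, h4, this, h2, hq]
      linear_combination (e r * e r) * ep p + ep r
    have b2 : e (p ^ 4 * r ^ 4) = 1 := by
      have : p ^ 4 * r ^ 4 = (p * r) ^ 4 := by ring
      rw [this, h4, hq]
    rw [G_eq_zero e h1 h2 _ b1, G_eq_zero e h1 h2 _ b2, mul_zero]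
  · have hy : e (p * r + 1) = 1 := by
      rw [AddChar.map_add_eq_mul, hq, h1]; norm_num
    obtain ⟨k, hk⟩ := exists_root e h1 h2 _ hy
    obtain ⟨w, hw⟩ : ∃ w, w = p + r + p * r + k := ⟨_, rfl⟩
    have hk4 : k ^ 4 + k = (p * r) ^ 2 + p * r := by
      grind
    have hb : p ^ 4 + p ^ 2 * r ^ 2 + r ^ 4 + p + r + w ^ 4 + w = p ^ 4 * r ^ 4 := by
      rw [hw]; grind
    rw [G_shift e h2 (p ^ 4 + p ^ 2 * r ^ 2 + r ^ 4 + p + r) w, hb]
    congr 1
    -- it remains to compare characters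
    have c1 : e (w ^ 6 + (p ^ 4 + p ^ 2 * r ^ 2 + r ^ 4 + p + r) * w ^ 2) =
        e (w ^ 3 + (p ^ 2 + p * r + r ^ 2) * w + (p + r) * w ^ 2) := by
      have d1 : w ^ 6 + (p ^ 4 + p ^ 2 * r ^ 2 + r ^ 4 + p + r) * w ^ 2 =
          (w ^ 3 + (p ^ 2 + p * r + r ^ 2) * w) ^ 2 + (p + r) * w ^ 2 := by grind
      rw [d1, AddChar.map_add_eq_mul, h2, ← AddChar.map_add_eq_mul]
    rw [c1]
    obtain ⟨q, hq'⟩ : ∃ q, q = p * r := ⟨_, rfl⟩
    obtain ⟨T, hT⟩ : ∃ T, T = q + k := ⟨_, rfl⟩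
    have hTT : T ^ 2 = T + q ^ 2 + 1 := by
      rw [hT]; grind
    have c2 : w ^ 3 + (p ^ 2 + p * r + r ^ 2) * w + (p + r) * w ^ 2 =
        (p ^ 3 + r ^ 3) + (q ^ 2 * T + (q * T) + (q ^ 2 + 1)) := by
      have : w = (p + r) + T := by rw [hw, hT, hq']; ring
      rw [this]
      grind
    have c3 : e (q ^ 2 * T + (q * T) + (q ^ 2 + 1)) = 1 := by
      rw [AddChar.map_add_eq_mul, AddChar.map_add_eq_mul, ← h2 (q * T)]
      have : (q * T) ^ 2 = q ^ 2 * T + (q ^ 4 + q ^ 2) := by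
        rw [mul_pow, hTT]; ring
      rw [this, AddChar.map_add_eq_mul, AddChar.map_add_eq_mul, AddChar.map_add_eq_mul, h4, h2, h1,
        hq', hq]
      linear_combination ep ((p * r) ^ 2 * T)
    rw [c2, AddChar.map_add_eq_mul, c3, mul_one]

theorem exists_fourth (x : F) : ∃ p : F, p ^ 4 = x := by
  obtain ⟨a, ha⟩ := sq_bij.2 x
  obtain ⟨b, hb⟩ := sq_bij.2 a
  simp only at ha hb
  exact ⟨b, by rw [← ha, ← hb]; ring⟩

/-- the quartic sum of (J2). -/
theorem quartic (e : AddChar F ℂ) (h1 : e 1 = -1) (h2 : ∀ x, e (x ^ 2) = e x) (x z : F) :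
    ∑ u : F, e (u ^ 3 + x * u + (x + z) * z * u ^ 2 + (x + z) * u ^ 4) =
      e (x ^ 3 + z ^ 3) * G e (x * z) := by
  obtain ⟨p, rfl⟩ := exists_fourth x
  obtain ⟨r, rfl⟩ := exists_fourth z
  have h4 : ∀ x, e (x ^ 4) = e x := by
    intro x
    have : x ^ 4 = (x ^ 2) ^ 2 := by ring
    rw [this, h2, h2]
  have a1 : e ((p ^ 4) ^ 3 + (r ^ 4) ^ 3) = e (p ^ 3 + r ^ 3) := by
    rw [← h4 (p ^ 3 + r ^ 3)]
    congr 1
    grind
  rw [a1, ← G_main e h1 h2]
  unfold G
  refine Finset.sum_congr rfl fun u _ => ?_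
  have a2 : u ^ 3 + p ^ 4 * u + (p ^ 4 + r ^ 4) * r ^ 4 * u ^ 2 + (p ^ 4 + r ^ 4) * u ^ 4 =
      (u ^ 3 + p ^ 4 * u) + ((p + r) ^ 2 * r ^ 2 * u) ^ 2 + ((p + r) * u) ^ 4 := by
    grind
  rw [a2, AddChar.map_add_eq_mul, AddChar.map_add_eq_mul, h4, h2, ← AddChar.map_add_eq_mul,
    ← AddChar.map_add_eq_mul]
  congr 1
  grind

omit [CharP F 2] in
theorem cube_root (hinj : Function.Injective fun x : F => x ^ 3) (a : Fˣ) :
    ∃ x : Fˣ, (a : F) = (x : F) ^ 3 := by
  obtain ⟨x, hx⟩ := (Finite.injective_iff_bijective.1 hinj).2 (a : F)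
  simp only at hx
  have hx0 : x ≠ 0 := by
    rintro rfl
    apply a.ne_zero
    rw [← hx]; ring
  exact ⟨Units.mk0 x hx0, by simp [hx]⟩

theorem sum_units' (f : F → ℂ) : ∑ y : Fˣ, f y = ∑ y : F, f y - f 0 := by
  rw [sum_units f, eq_sub_iff_add_eq]
  have h : f 0 = ∑ y : F, if y = 0 then f y else 0 := by simp
  rw [h, ← Finset.sum_add_distrib]
  refine Finset.sum_congr rfl fun y _ => ?_
  split_ifs <;> simp

/-- substitution of cubes in a sum over the units. -/
theorem sum_units_cube (hinj : Function.Injective fun x : F => x ^ 3) (f : F → ℂ) :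
    ∑ y : Fˣ, f y = ∑ w : Fˣ, f ((w : F) ^ 3) := by
  rw [sum_units' f, sum_units' (fun w => f (w ^ 3)), sum_cube hinj f]
  simp

theorem J0' (e : AddChar F ℂ) (h1 : e 1 = -1) : ∑ y : Fˣ, B e (y : F) = Fintype.card F := by
  unfold B
  rw [Finset.sum_comm]
  have a1 : ∀ l : F, ∑ y : Fˣ, e ((y : F) * (l ^ 3 + l ^ 2)) =
      (if l = 0 then (Fintype.card F : ℂ) else 0) + (if l = 1 then (Fintype.card F : ℂ) else 0)
        - 1 := by
    intro l
    have : ∀ y : Fˣ, e ((y : F) * (l ^ 3 + l ^ 2)) = e ((l ^ 3 + l ^ 2) * y) := fun y => by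
      rw [mul_comm]
    rw [Finset.sum_congr rfl fun y _ => this y, sum_units_e e (hne e h1)]
    congr 1
    by_cases c0 : l = 0
    · subst c0; simp
    · by_cases c1 : l = 1
      · subst c1
        have : (1 : F) + 1 = 0 := CharTwo.add_self_eq_zero 1
        simp [this]
      · have : l ^ 3 + l ^ 2 ≠ 0 := by
          intro h
          have h' : l ^ 2 * (l + 1) = 0 := by rw [← h]; ring
          rcases mul_eq_zero.1 h' with h'' | h''
          · exact c0 (pow_eq_zero_iff (two_ne_zero) |>.1 h'')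
          · exact c1 (CharTwo.add_eq_zero.1 h'')
        simp [this, c0, c1]
  rw [Finset.sum_congr rfl fun l _ => a1 l, Finset.sum_sub_distrib, Finset.sum_add_distrib]
  simp

theorem J1' (e : AddChar F ℂ) (h1 : e 1 = -1) (h2 : ∀ x, e (x ^ 2) = e x)
    (hinj : Function.Injective fun x : F => x ^ 3) (x z : Fˣ) :
    ∑ y : Fˣ, B e ((x : F) ^ 3 * y) * B e ((z : F) ^ 3 * y) =
      if (x : F) = z then (Fintype.card F : ℂ) ^ 2 else 0 := by
  have hx := x.ne_zero
  have hz := z.ne_zero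
  rw [sum_units_cube hinj (fun y => B e ((x : F) ^ 3 * y) * B e ((z : F) ^ 3 * y))]
  have a1 : ∀ w : Fˣ, B e ((x : F) ^ 3 * (w : F) ^ 3) * B e ((z : F) ^ 3 * (w : F) ^ 3) =
      G e (x * w) * G e (z * w) := by
    intro w
    rw [← mul_pow, ← mul_pow, B_eq_G e h2 _ (mul_ne_zero hx w.ne_zero),
      B_eq_G e h2 _ (mul_ne_zero hz w.ne_zero)]
  rw [Finset.sum_congr rfl fun w _ => a1 w,
    sum_units' (fun w => G e (x * w) * G e (z * w)), mul_zero, G_zero e h1 hinj, zero_mul, sub_zero]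
  have a2 : ∀ w : F, G e (x * w) * G e (z * w) =
      ∑ s : F, ∑ t : F, e (s ^ 3 + t ^ 3) * e ((x * s + z * t) * w) := by
    intro w
    unfold G
    rw [Finset.sum_mul_sum]
    refine Finset.sum_congr rfl fun s _ => Finset.sum_congr rfl fun t _ => ?_
    rw [← AddChar.map_add_eq_mul, ← AddChar.map_add_eq_mul]
    congr 1
    ring
  rw [Finset.sum_congr rfl fun w _ => a2 w, Finset.sum_comm]
  have a3 : ∀ s : F, ∑ w : F, ∑ t : F, e (s ^ 3 + t ^ 3) * e ((x * s + z * t) * w) =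
      Fintype.card F * e ((1 + (x / z) ^ 3) * s ^ 3) := by
    intro s
    rw [Finset.sum_comm]
    have : ∀ t : F, ∑ w : F, e (s ^ 3 + t ^ 3) * e ((x * s + z * t) * w) =
        if t = x / z * s then (Fintype.card F : ℂ) * e ((1 + (x / z) ^ 3) * s ^ 3) else 0 := by
      intro t
      rw [← Finset.mul_sum, sum_e e (hne e h1)]
      have h3 : (x : F) * s + z * t = 0 ↔ t = x / z * s := by
        rw [CharTwo.add_eq_zero]
        constructor
        · intro h; field_simp; linear_combination -h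
        · intro h; rw [h]; field_simp
      simp only [h3]
      split_ifs with h
      · rw [h, mul_comm]; congr 2; ring
      · simp
    rw [Finset.sum_congr rfl fun t _ => this t]
    simp
  rw [Finset.sum_congr rfl fun s _ => a3 s, ← Finset.mul_sum,
    sum_cube hinj (fun s => e ((1 + (x / z) ^ 3) * s)), sum_e e (hne e h1)]
  have h5 : (1 : F) + (x / z) ^ 3 = 0 ↔ (x : F) = z := by
    rw [CharTwo.add_eq_zero]
    constructor
    · intro h
      apply hinj
      simp only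
      field_simp at h
      rw [h]
    · intro h; rw [h]; field_simp
  simp only [h5]
  split_ifs
  · ring
  · simp

theorem B_expand (e : AddChar F ℂ) (x : F) (hx : x ≠ 0) (y : F) :
    B e (x ^ 3 * y) = ∑ A : F, e (y * (A ^ 3 + x * A ^ 2)) := by
  unfold B
  refine Fintype.sum_equiv (Equiv.mulLeft₀ x hx) _ _ fun l => ?_
  simp only [Equiv.mulLeft₀_apply]
  congr 1
  ring

theorem BB_expand (e : AddChar F ℂ) (h1 : e 1 = -1) (h2 : ∀ x, e (x ^ 2) = e x) (x z : F)
    (hx : x ≠ 0) (hz : z ≠ 0) (y : F) :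
    e y * (B e (x ^ 3 * y) * B e (z ^ 3 * y)) =
      ∑ m : F, e (y * (m ^ 3 + z * m ^ 2 + 1)) *
        if y * (m + (x + z)) + y ^ 2 * m ^ 4 = 0 then (Fintype.card F : ℂ) else 0 := by
  rw [B_expand e x hx, B_expand e z hz, Finset.sum_mul_sum, Finset.mul_sum]
  have a1 : ∀ A : F, e y * ∑ K : F, e (y * (A ^ 3 + x * A ^ 2)) * e (y * (K ^ 3 + z * K ^ 2)) =
      ∑ m : F, e (y * (m ^ 3 + z * m ^ 2 + 1)) *
        e ((y * (m + (x + z)) + y ^ 2 * m ^ 4) * A ^ 2) := by
    intro A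
    rw [Finset.mul_sum]
    symm
    refine Fintype.sum_equiv (Equiv.addRight A) _ _ fun m => ?_
    simp only [Equiv.coe_addRight]
    have a2 : (y * (m + (x + z)) + y ^ 2 * m ^ 4) * A ^ 2 =
        y * (m + (x + z)) * A ^ 2 + (y * m ^ 2 * A) ^ 2 := by ring
    rw [a2, AddChar.map_add_eq_mul, h2, ← AddChar.map_add_eq_mul, ← AddChar.map_add_eq_mul,
      ← AddChar.map_add_eq_mul, ← AddChar.map_add_eq_mul]
    congr 1
    grind
  rw [Finset.sum_congr rfl fun A _ => a1 A, Finset.sum_comm]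
  refine Finset.sum_congr rfl fun m _ => ?_
  rw [← Finset.mul_sum, sum_sq (fun t => e ((y * (m + (x + z)) + y ^ 2 * m ^ 4) * t)),
    sum_e e (hne e h1)]

/-- the reindexed sum. -/
theorem W_eval (e : AddChar F ℂ) (h1 : e 1 = -1) (x z : F) :
    ∑ m : F, ∑ y : Fˣ, (if m + (x + z) + y * m ^ 4 = 0 then
        e (y * (m ^ 3 + z * m ^ 2 + 1)) else 0) =
      ∑ u : F, e (1 + (u ^ 3 + x * u + (x + z) * z * u ^ 2 + (x + z) * u ^ 4)) := by
  obtain ⟨c, hc⟩ : ∃ c, c = x + z := ⟨_, rfl⟩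
  have hxz : x = z + c := by rw [hc]; grind
  rw [← hc]
  have a1 : ∀ m : F, ∑ y : Fˣ, (if m + c + y * m ^ 4 = 0 then
        e (y * (m ^ 3 + z * m ^ 2 + 1)) else 0) =
      if m = 0 then (if c = 0 then -1 else 0) else
        if m + c = 0 then 0 else e ((m + c) / m ^ 4 * (m ^ 3 + z * m ^ 2 + 1)) := by
    intro m
    by_cases hm : m = 0
    · subst hm
      simp only [if_true]
      by_cases hc0 : c = 0
      · simp only [hc0]
        have := sum_units_e e (hne e h1) (1 : F)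
        simpa using this
      · simp [hc0]
    · rw [if_neg hm, sum_units (fun y : F => if m + c + y * m ^ 4 = 0 then
        e (y * (m ^ 3 + z * m ^ 2 + 1)) else 0)]
      rw [Finset.sum_eq_single ((m + c) / m ^ 4)]
      · by_cases h : m + c = 0
        · simp [h]
        · have h3 : (m + c) / m ^ 4 ≠ 0 := div_ne_zero h (pow_ne_zero 4 hm)
          have h4 : m + c + (m + c) / m ^ 4 * m ^ 4 = 0 := by
            rw [div_mul_cancel₀ _ (pow_ne_zero 4 hm), CharTwo.add_self_eq_zero]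
          rw [if_neg h3, if_pos h4, if_neg h]
      · intro y _ hy
        split_ifs with h5 h6
        · rfl
        · exfalso
          apply hy
          rw [eq_div_iff (pow_ne_zero 4 hm)]
          exact (CharTwo.add_eq_zero.1 h6).symm
        · rfl
      · simp
  rw [Finset.sum_congr rfl fun m _ => a1 m]
  have a2 : ∀ f : F → ℂ, ∑ m : F, f m = ∑ u : F, f u⁻¹ := by
    intro f
    exact Fintype.sum_equiv (Equiv.inv F) _ _ fun u => by simp
  rw [a2]
  have a3 : ∀ u : F, e (1 + (u ^ 3 + x * u + c * z * u ^ 2 + c * u ^ 4)) =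
      (if u⁻¹ = 0 then (if c = 0 then -1 else 0) else
        if u⁻¹ + c = 0 then 0 else e ((u⁻¹ + c) / u⁻¹ ^ 4 * (u⁻¹ ^ 3 + z * u⁻¹ ^ 2 + 1))) +
      ((if u = c⁻¹ then (if c = 0 then 0 else 1) else 0) - (if u = 0 then (if c = 0 then 0 else 1) else 0)) := by
    intro u
    by_cases hu : u = 0
    · subst hu
      by_cases hc0 : c = 0
      · simp [hc0, h1]
      · have : (0 : F) ≠ c⁻¹ := (inv_ne_zero hc0).symm
        simp [hc0, h1, this]
    · have hu' : u⁻¹ ≠ 0 := inv_ne_zero hu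
      rw [if_neg hu', if_neg hu, sub_zero]
      have g : 1 + (u ^ 3 + x * u + c * z * u ^ 2 + c * u ^ 4) =
          (1 + c * u) * (1 + z * u + u ^ 3) := by rw [hxz]; ring
      by_cases h : u⁻¹ + c = 0
      · have h7 : u⁻¹ = c := CharTwo.add_eq_zero.1 h
        have hc0 : c ≠ 0 := by rw [← h7]; exact hu'
        have h8 : u = c⁻¹ := by rw [← h7, inv_inv]
        have h9 : 1 + c * u = 0 := by
          rw [h8, mul_inv_cancel₀ hc0, CharTwo.add_self_eq_zero]
        rw [if_pos h, if_pos h8, if_neg hc0, g, h9]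
        simp
      · have h8 : ¬ (u = c⁻¹) := by
          intro h9
          apply h
          rw [h9, inv_inv, CharTwo.add_self_eq_zero]
        rw [if_neg h, if_neg h8, add_zero, g]
        congr 1
        field_simp
  rw [Finset.sum_congr rfl fun u _ => a3 u, Finset.sum_add_distrib, Finset.sum_sub_distrib,
    Finset.sum_ite_eq', Finset.sum_ite_eq']
  simp

theorem J2' (e : AddChar F ℂ) (h1 : e 1 = -1) (h2 : ∀ x, e (x ^ 2) = e x) (x z : Fˣ) :
    ∑ y : Fˣ, e y * (B e ((x : F) ^ 3 * y) * B e ((z : F) ^ 3 * y)) =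
      -(Fintype.card F : ℂ) * (e ((x : F) ^ 3 + (z : F) ^ 3) * B e ((x : F) ^ 3 * (z : F) ^ 3)) := by
  have hx := x.ne_zero
  have hz := z.ne_zero
  have a1 : ∀ y : Fˣ, e y * (B e ((x : F) ^ 3 * y) * B e ((z : F) ^ 3 * y)) =
      Fintype.card F * ∑ m : F, (if m + ((x : F) + z) + y * m ^ 4 = 0 then
        e (y * (m ^ 3 + z * m ^ 2 + 1)) else 0) := by
    intro y
    rw [BB_expand e h1 h2 _ _ hx hz, Finset.mul_sum]
    refine Finset.sum_congr rfl fun m _ => ?_
    have : (y : F) * (m + ((x : F) + z)) + (y : F) ^ 2 * m ^ 4 = 0 ↔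
        m + ((x : F) + z) + y * m ^ 4 = 0 := by
      have h3 : (y : F) * (m + ((x : F) + z)) + (y : F) ^ 2 * m ^ 4 =
        y * (m + ((x : F) + z) + y * m ^ 4) := by ring
      rw [h3, mul_eq_zero]
      simp [y.ne_zero]
    simp only [this]
    split_ifs <;> ring
  rw [Finset.sum_congr rfl fun y _ => a1 y, ← Finset.mul_sum, Finset.sum_comm,
    W_eval e h1 (x : F) (z : F), ← mul_pow, B_eq_G e h2 _ (mul_ne_zero hx hz),
    ← quartic e h1 h2, neg_mul, ← mul_neg]
  congr 1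
  rw [← Finset.sum_neg_distrib]
  refine Finset.sum_congr rfl fun u _ => ?_
  rw [AddChar.map_add_eq_mul, h1]
  ring

theorem stmG : StmG := by
  intro F _ _ _ _ e h1 h2 hinj
  have hN : (Fintype.card F : ℂ) ≠ 0 := by exact_mod_cast Fintype.card_ne_zero
  have hJ : ∀ x, JJ e x = -(1 / (Fintype.card F : ℂ)) * B e x := fun x => rfl
  refine ⟨?_, ?_, ?_, ?_⟩
  · simp only [hJ]
    rw [← Finset.mul_sum, J0' e h1]
    field_simp
  · intro a b
    obtain ⟨x, hx⟩ := cube_root hinj a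
    obtain ⟨z, hz⟩ := cube_root hinj b
    have h3 : ∀ y : Fˣ, JJ e ((a : F) * y) * JJ e ((b : F) * y) =
        (1 / (Fintype.card F : ℂ)) ^ 2 * (B e ((x : F) ^ 3 * y) * B e ((z : F) ^ 3 * y)) := by
      intro y
      rw [hJ, hJ, hx, hz]; ring
    rw [Finset.sum_congr rfl fun y _ => h3 y, ← Finset.mul_sum, J1' e h1 h2 hinj]
    have h4 : (a = b) ↔ (x : F) = z := by
      rw [← Units.val_inj, hx, hz]
      exact ⟨fun h => hinj h, fun h => by rw [h]⟩
    simp only [h4]
    split_ifs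
    · field_simp
    · simp
  · intro a b
    obtain ⟨x, hx⟩ := cube_root hinj a
    obtain ⟨z, hz⟩ := cube_root hinj b
    have h3 : ∀ y : Fˣ, e y * (JJ e ((a : F) * y) * JJ e ((b : F) * y)) =
        (1 / (Fintype.card F : ℂ)) ^ 2 *
          (e y * (B e ((x : F) ^ 3 * y) * B e ((z : F) ^ 3 * y))) := by
      intro y
      rw [hJ, hJ, hx, hz]; ring
    rw [Finset.sum_congr rfl fun y _ => h3 y, ← Finset.mul_sum, J2' e h1 h2, hJ, hx, hz]
    field_simp
  · intro x
    unfold JJ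
    simp only [map_mul, map_neg, map_sum, map_div₀, map_one, map_natCast]
    congr 1
    refine Finset.sum_congr rfl fun l _ => ?_
    rcases e_pm e (x * (l ^ 3 + l ^ 2)) with h | h <;> rw [h] <;> simp

end Pool.Agent.K3h67.KR
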